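import Pool.Agent.X137.MW.Polar

set_option autoImplicit false

/-!
# Mean width preserving symmetrizations and orthogonal translations

Let `H` be a linear subspace of `ℝⁿ`, `n ≥ 2`, and let `B` be the class of nonempty compact convex
sets or the class of convex bodies.  A monotonic, mean width preserving symmetrization
`D : B → B_H` that fixes every `H`-symmetric set and is not invariant under translations orthogonal
to `H` of `H`-symmetric sets exists if and only if `H = {0}`.
-/

namespace Pool.Agent.Results.MP_182b9e_gt.IffPoint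

open MeasureTheory Set

/-- Euclidean space of dimension `n`. -/
abbrev E (n : ℕ) := EuclideanSpace ℝ (Fin n)

/-- The support function `h_K(v) = sup_{y ∈ K} ⟨y, v⟩`. -/
noncomputable def supportFn {n : ℕ} (K : Set (E n)) (v : E n) : ℝ :=
  sSup ((fun y : E n => @inner ℝ (E n) _ y v) '' K)

/-- The mean width `w(K) = (2 / (n κ_n)) ∫_{S^{n-1}} h_K(u) du`. -/
noncomputable def meanWidth {n : ℕ} (K : Set (E n)) : ℝ :=
  2 / (n * (volume (Metric.ball (0 : E n) 1)).toReal) *
    ∫ u : Metric.sphere (0 : E n) 1, supportFn K (u : E n) ∂((volume : Measure (E n)).toSphere)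

/-- The class of nonempty compact convex subsets of `ℝⁿ`. -/
def compactConvex (n : ℕ) : Set (Set (E n)) := {K | K.Nonempty ∧ IsCompact K ∧ Convex ℝ K}

/-- The class of convex bodies of `ℝⁿ`: compact convex sets with nonempty interior. -/
def convexBodies (n : ℕ) : Set (Set (E n)) :=
  {K | K.Nonempty ∧ IsCompact K ∧ Convex ℝ K ∧ (interior K).Nonempty}

/-- `K` is `H`-symmetric: the orthogonal reflection in `H` maps `K` onto `K`. -/
def IsSymm {n : ℕ} (H : Submodule ℝ (E n)) (K : Set (E n)) : Prop := H.reflection '' K = K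

/-- `D` is a symmetrization of the class `B`: it maps members of `B` to `H`-symmetric members
of `B`. -/
def IsSymmetrization {n : ℕ} (H : Submodule ℝ (E n)) (B : Set (Set (E n)))
    (D : Set (E n) → Set (E n)) : Prop := ∀ K ∈ B, D K ∈ B ∧ IsSymm H (D K)

/-- `D` is monotonic on `B`. -/
def IsMonotonic {n : ℕ} (B : Set (Set (E n))) (D : Set (E n) → Set (E n)) : Prop :=
  ∀ K ∈ B, ∀ L ∈ B, K ⊆ L → D K ⊆ D L

/-- `D` preserves the mean width of the members of `B`. -/
def PreservesMeanWidth {n : ℕ} (B : Set (Set (E n))) (D : Set (E n) → Set (E n)) : Prop :=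
  ∀ K ∈ B, meanWidth (D K) = meanWidth K

/-- `D` is invariant on `H`-symmetric sets. -/
def FixesSymmetric {n : ℕ} (H : Submodule ℝ (E n)) (B : Set (Set (E n)))
    (D : Set (E n) → Set (E n)) : Prop := ∀ K ∈ B, IsSymm H K → D K = K

/-- `D` is invariant under translations orthogonal to `H` of `H`-symmetric sets. -/
def TranslationInvariant {n : ℕ} (H : Submodule ℝ (E n)) (B : Set (Set (E n)))
    (D : Set (E n) → Set (E n)) : Prop :=
  ∀ K ∈ B, IsSymm H K → ∀ y ∈ Hᗮ, D ((fun x => x + y) '' K) = D K

open Pool.Agent.X137.MW in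
lemma meanWidth_eq_iff {n : ℕ} (hn : 2 ≤ n) {K L : Set (E n)} (hK : IsCompact K) (hKn : K.Nonempty)
    (hL : IsCompact L) (hLn : L.Nonempty) : meanWidth K = meanWidth L ↔ V K = V L := by
  rw [V_eq_iff (by omega) hK hKn hL hLn]
  have hc : (2 / (n * (volume (Metric.ball (0 : E n) 1)).toReal) : ℝ) ≠ 0 := by
    have : Nonempty (Fin n) := ⟨⟨0, by omega⟩⟩
    have h1 : 0 < (volume (Metric.ball (0 : E n) 1)).toReal :=
      ENNReal.toReal_pos (Metric.measure_ball_pos _ _ one_pos).ne' measure_ball_lt_top.ne
    have h2 : (0:ℝ) < n := by exact_mod_cast (by omega : 0 < n)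
    positivity
  exact mul_right_inj' hc

open Pool.Agent.X137.MW in
/-- For `n ≥ 2`, every linear subspace `H` of `ℝⁿ` and each of the two classes `B`: there is a
monotonic, mean width preserving symmetrization of `B` which fixes every `H`-symmetric set and is
not invariant under translations orthogonal to `H` of `H`-symmetric sets if and only if
`dim H = 0`. -/
theorem result (n : ℕ) (hn : 2 ≤ n) (H : Submodule ℝ (E n)) (B : Set (Set (E n)))
    (hB : B = compactConvex n ∨ B = convexBodies n) :
    (∃ D : Set (E n) → Set (E n), IsSymmetrization H B D ∧ IsMonotonic B D ∧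
      PreservesMeanWidth B D ∧ FixesSymmetric H B D ∧ ¬ TranslationInvariant H B D) ↔
    Module.finrank ℝ H = 0 := by
  -- uniform description of the two classes
  obtain ⟨b, hb⟩ : ∃ b : Bool, ∀ K, K ∈ B ↔ Cls (b = true) K := by
    rcases hB with rfl | rfl
    · refine ⟨false, fun K => ?_⟩
      constructor
      · rintro ⟨h1, h2, h3⟩
        exact ⟨h2, h3, h1, by simp⟩
      · rintro ⟨h1, h2, h3, -⟩
        exact ⟨h3, h1, h2⟩
    · refine ⟨true, fun K => ?_⟩
      constructor
      · rintro ⟨h1, h2, h3, h4⟩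
        exact ⟨h2, h3, h1, fun _ => h4⟩
      · rintro ⟨h1, h2, h3, h4⟩
        exact ⟨h3, h1, h2, h4 rfl⟩
  constructor
  · rintro ⟨D, h1, h2, h3, h4, h5⟩
    by_contra hne
    have hH : H ≠ ⊥ := by
      rintro rfl
      exact hne (finrank_bot ℝ _)
    apply h5
    have hD : Good H (b = true) D := by
      refine ⟨fun K hK => (hb _).1 (h1 K ((hb K).2 hK)).1, fun K hK => (h1 K ((hb K).2 hK)).2,
        fun K L hK hL h => h2 K ((hb K).2 hK) L ((hb L).2 hL) h, fun K hK => ?_,
        fun K hK hs => h4 K ((hb K).2 hK) hs⟩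
      have hDK := (hb _).1 (h1 K ((hb K).2 hK)).1
      exact (meanWidth_eq_iff hn hDK.compact hDK.ne hK.compact hK.ne).1 (h3 K ((hb K).2 hK))
    intro K hK hKs y hy
    rw [invariant hD hH ((hb K).1 hK) hKs hy, h4 K hK hKs]
  · intro hfr
    have hH : H = ⊥ := Submodule.finrank_eq_zero.1 hfr
    subst hH
    obtain ⟨D, h1, h2, h3, h4, x, hx⟩ := general n hn b
    have hsym : ∀ K : Set (E n), IsSymm ⊥ K ↔ ∀ x ∈ K, -x ∈ K := by
      intro K
      have h0 := sym_iff (⊥ : Submodule ℝ (E n)) K
      refine h0.trans ?_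
      rw [Submodule.reflection_bot]
      rfl
    refine ⟨D, ?_, ?_, ?_, ?_, ?_⟩
    · intro K hK
      obtain ⟨h5, h6⟩ := h1 K ((hb K).1 hK)
      exact ⟨(hb _).2 h5, (hsym _).2 h6⟩
    · intro K hK L hL h
      exact h2 K L ((hb K).1 hK) ((hb L).1 hL) h
    · intro K hK
      have hK' := (hb K).1 hK
      have hDK : Cls (b = true) (D K) := (h1 K hK').1
      exact (meanWidth_eq_iff hn hDK.compact hDK.ne hK'.compact hK'.ne).2 (h3 K hK')
    · intro K hK hs
      exact h4 K ((hb K).1 hK) ((hsym K).1 hs)
    · intro hT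
      have hball : Cls (b = true) (Metric.closedBall (0 : E n) 1) := by
        refine ⟨isCompact_closedBall 0 1, convex_closedBall 0 1, ⟨0, by simp⟩, fun _ => ⟨0, ?_⟩⟩
        rw [interior_closedBall _ one_ne_zero]
        simp
      have hbs : IsSymm ⊥ (Metric.closedBall (0 : E n) 1) := by
        rw [hsym]
        intro x hx
        simpa using hx
      have h6 := hT _ ((hb _).2 hball) hbs x (by simp)
      rw [h4 _ hball ((hsym _).1 hbs)] at h6
      exact hx h6

end Pool.Agent.Results.MP_182b9e_gt.IffPoint
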